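import Pool.Agent.Helper79_MT4.Stmt

/-! Squad MT4, module BAS (helper48): no fixed vectors, the images span, irreducibility under the
orbit, the trace form. -/

set_option autoImplicit false
set_option linter.unusedSectionVars false

namespace Pool.Agent.MT4.H48

open Module LinearMap Polynomial Pool.Agent.MT4

universe u v w

section
variable {K : Type u} {V : Type v} {ι : Type w} [Field K] [CharZero K]
    [AddCommGroup V] [Module K V] [FiniteDimensional K V] {ψ : V →ₗ[K] V →ₗ[K] K}
    {e : ι → End K V} {σ : ι → ι} {g : Submodule K (End K V)} {N : End K V}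

/-- the torus element with parameter 2 -/
theorem tor2 (h : End K V) (hh : h ∈ Hs e g) :
    Gp e g (((1 / 2 : K) • 1 + h) + (2 : K) • ((1 / 2 : K) • 1 - h))
      (((1 / 2 : K) • 1 + h) + (2 : K)⁻¹ • ((1 / 2 : K) • 1 - h)) := by
  have := Gp.tor h hh (2 : K) two_ne_zero 1 1 (Gp.one (e := e) (g := g))
  rwa [mul_one, one_mul] at this

/-- a subspace stable under the torus elements with parameter 2 is stable under `Hs` -/
theorem stab_of_tor (U : Submodule K V) (h : End K V)
    (hU : ∀ x ∈ U, (((1 / 2 : K) • 1 + h) + (2 : K) • ((1 / 2 : K) • 1 - h)) x ∈ U) :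
    ∀ x ∈ U, h x ∈ U := by
  intro x hx
  have h1 := hU x hx
  have e1 : h x = (3 / 2 : K) • x -
      (((1 / 2 : K) • 1 + h) + (2 : K) • ((1 / 2 : K) • 1 - h)) x := by
    simp only [LinearMap.add_apply, LinearMap.smul_apply, LinearMap.sub_apply, Module.End.one_apply]
    module
  rw [e1]
  exact U.sub_mem (U.smul_mem _ hx) h1

theorem ne_zero_of_rk {A : End K V} (h : RankOne A) : A ≠ 0 := by
  obtain ⟨x, φ, hx, hφ, rfl⟩ := h
  intro h0
  apply hφ
  ext y
  have := LinearMap.congr_fun h0 y
  simp only [LinearMap.smulRight_apply, LinearMap.zero_apply] at this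
  rcases smul_eq_zero.mp this with h1 | h1
  · exact h1
  · exact absurd h1 hx

end

theorem bas (hC : CurStmt.{u, v}) (hG : GrpStmt.{u, v, w}) (hO : OrbStmt.{u, v, w})
    (hI : IrrStmt.{u, v, w}) (hR : RkStmt.{u, v}) : BasStmt.{u, v, w} := by
  intro K V ι _ _ _ _ _ ψ e σ g N hB hN i
  obtain ⟨hNO, hOR, hOs, hOc, hOu⟩ := hO K V ι ψ e σ g N hB hN
  have hG' := hG K V ι ψ e σ g hB
  have hIrr := hI K V ι ψ e σ g N hB hN
  have hNe : N * e i ≠ 0 := ne_zero_of_rk (hN.2.2 i)
  have hcomm : ∀ M ∈ Orb e g N, ∀ x, M (e i x) = e i (M x) := fun M hM x =>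
    LinearMap.congr_fun (hB.comm M (hOR M hM).1 i) x
  have hei : ∀ x, e i (e i x) = e i x := fun x => LinearMap.congr_fun (hB.idem i) x
  -- polynomial functions
  have poly1 : ∀ F : End K V →ₗ[K] K, PolyOn (fun A _ _ => F A) := by
    intro F p q r hp _ _
    exact (hC K V).2.2.2.2.2.2 F p hp
  have poly2 : ∀ F : End K V →ₗ[K] K, PolyOn (fun A B _ => F (A * B)) := by
    intro F p q r hp hq _
    exact (hC K V).2.2.2.2.2.2 F _ ((hC K V).2.2.2.1 p q hp hq)
  have poly2' : ∀ F : End K V →ₗ[K] K, PolyOn (fun A B _ => F (B * A)) := by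
    intro F p q r hp hq _
    exact (hC K V).2.2.2.2.2.2 F _ ((hC K V).2.2.2.1 q p hq hp)
  -- (1)
  have c1 : ∀ x, e i x = x → (∀ M ∈ Orb e g N, M x = 0) → x = 0 := by
    intro x hx h0
    let U : Submodule K V :=
      { carrier := {x | ∀ M ∈ Orb e g N, M x = 0}
        add_mem' := fun {a b} ha hb M hM => by rw [map_add, ha M hM, hb M hM, add_zero]
        zero_mem' := fun M _ => map_zero M
        smul_mem' := fun c a ha M hM => by rw [map_smul, ha M hM, smul_zero] }
    have hst : ∀ h ∈ Hs e g, ∀ x ∈ U, h x ∈ U := by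
      intro h hh
      refine stab_of_tor U h fun y hy M hM => ?_
      set a := ((1 / 2 : K) • 1 + h) + (2 : K) • ((1 / 2 : K) • 1 - h) with ha
      set b := ((1 / 2 : K) • 1 + h) + (2 : K)⁻¹ • ((1 / 2 : K) • 1 - h) with hb
      have hab : Gp e g a b := tor2 h hh
      have hba := (hG' a b hab).2.2.2.2.2.2.1
      have h1 := hy _ (hOc M hM b a hba)
      have h2 : a * (b * M * a) = M * a := by
        rw [← mul_assoc, ← mul_assoc, (hG' a b hab).1, one_mul]
      calc M (a y) = (M * a) y := rfl
        _ = (a * (b * M * a)) y := by rw [h2]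
        _ = a ((b * M * a) y) := rfl
        _ = 0 := by rw [h1, map_zero]
    rcases hB.irr U hst i with h1 | h1
    · exfalso
      apply hNe
      ext y
      exact h1 y N hNO
    · rw [← hx]
      exact h1 x h0
  -- (2)
  have c2 : ∀ F : V →ₗ[K] K, (∀ M ∈ Orb e g N, ∀ x, F (e i (M x)) = 0) → ∀ x, F (e i x) = 0 := by
    intro F hF x
    set U : Submodule K V := Submodule.span K {y | ∃ M ∈ Orb e g N, ∃ x, M x = y} with hU
    have hst : ∀ h ∈ Hs e g, ∀ x ∈ U, h x ∈ U := by
      intro h hh
      refine stab_of_tor U h fun y hy => ?_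
      set a := ((1 / 2 : K) • 1 + h) + (2 : K) • ((1 / 2 : K) • 1 - h) with ha
      set b := ((1 / 2 : K) • 1 + h) + (2 : K)⁻¹ • ((1 / 2 : K) • 1 - h) with hb
      have hab : Gp e g a b := tor2 h hh
      rw [hU] at hy
      induction hy using Submodule.span_induction with
      | mem y hy =>
        obtain ⟨M, hM, x, rfl⟩ := hy
        refine Submodule.subset_span ⟨a * M * b, hOc M hM a b hab, a x, ?_⟩
        calc (a * M * b) (a x) = (a * M * (b * a)) x := rfl
          _ = a (M x) := by rw [(hG' a b hab).2.1, mul_one]; rfl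
      | zero => rw [map_zero]; exact zero_mem _
      | add y z _ _ hy hz => rw [map_add]; exact add_mem hy hz
      | smul c y _ hy => rw [map_smul]; exact Submodule.smul_mem _ c hy
    have hFU : ∀ y ∈ U, F (e i y) = 0 := by
      intro y hy
      rw [hU] at hy
      induction hy using Submodule.span_induction with
      | mem y hy =>
        obtain ⟨M, hM, x, rfl⟩ := hy
        exact hF M hM x
      | zero => rw [map_zero, map_zero]
      | add y z _ _ hy hz => rw [map_add, map_add, hy, hz, add_zero]
      | smul c y _ hy => rw [map_smul, map_smul, hy, smul_zero]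
    rcases hB.irr U hst i with h1 | h1
    · rw [← hei x]
      exact hFU _ (h1 x)
    · exfalso
      apply hNe
      ext y
      have := h1 (N y) (Submodule.subset_span ⟨N, hNO, y, rfl⟩)
      change N (e i y) = 0
      rw [hcomm N hNO, this]
  -- (3)
  have c3 : ∀ U : Submodule K V, (∀ x ∈ U, e i x = x) → (∀ M ∈ Orb e g N, ∀ x ∈ U, M x ∈ U) →
      (∀ x ∈ U, x = 0) ∨ (∀ x, e i x ∈ U) := by
    intro U hU1 hU2
    by_contra hcon
    push Not at hcon
    obtain ⟨⟨x, hxU, hx0⟩, ⟨y, hy⟩⟩ := hcon
    have hM : ∃ M ∈ Orb e g N, M x ≠ 0 := by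
      by_contra h
      push Not at h
      exact hx0 (c1 x (hU1 x hxU) h)
    obtain ⟨M0, hM0, hM0x⟩ := hM
    obtain ⟨F1, hF1⟩ : ∃ F1 : V →ₗ[K] K, F1 (M0 x) ≠ 0 := by
      by_contra h
      push Not at h
      exact hM0x ((Module.forall_dual_apply_eq_zero_iff K _).mp h)
    obtain ⟨F2, hF2y, hF2U⟩ := U.exists_le_ker_of_notMem hy
    have step : ∀ M ∈ Orb e g N, ∀ z, F2 (e i (M z)) = 0 := by
      intro M1 hM1 z
      have := hIrr (fun A _ _ => ((F1.comp (LinearMap.applyₗ x : End K V →ₗ[K] V)) A))
        (fun A _ _ => (((F2.comp (e i)).comp (LinearMap.applyₗ z : End K V →ₗ[K] V)) A))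
        (poly1 _) (poly1 _) (by
          intro A hA _ _ _ _
          simp only [LinearMap.comp_apply, LinearMap.applyₗ_apply_apply]
          by_cases hAx : A x = 0
          · rw [hAx, map_zero, zero_mul]
          · have hrk : RankOne (A * e i) := (hOR A hA).2.2 i
            have hax : (A * e i) x ≠ 0 := by
              change A (e i x) ≠ 0
              rw [hU1 x hxU]
              exact hAx
            obtain ⟨c, hc⟩ := (hR K V (A * e i) (A * e i) (A * e i) hrk hrk hrk).2.2.2 x z hax
            have h1 : e i (A z) ∈ U := by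
              rw [← hcomm A hA]
              change (A * e i) z ∈ U
              rw [hc]
              apply U.smul_mem
              change A (e i x) ∈ U
              rw [hU1 x hxU]
              exact hU2 A hA x hxU
            rw [hF2U h1, mul_zero])
      rcases this with h1 | h1
      · exact absurd (h1 M0 hM0 M0 hM0 M0 hM0) hF1
      · exact h1 M1 hM1 M1 hM1 M1 hM1
    exact hF2y (c2 F2 step y)
  refine ⟨c1, c2, c3, ?_⟩
  -- (4)
  by_contra hcon
  push Not at hcon
  have hprod : ∀ A ∈ Orb e g N, ∀ B ∈ Orb e g N, A * B * e i = 0 ∨ B * A * e i = 0 := by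
    intro A hA B hB'
    obtain ⟨w, f, hw, hf, hAe⟩ := (hOR A hA).2.2 i
    obtain ⟨v, k, hv, hk, hBe⟩ := (hOR B hB').2.2 i
    have ABe : A * B * e i = (A * e i) * (B * e i) := by
      ext y
      change A (B (e i y)) = A (e i (B (e i y)))
      rw [← hcomm B hB', hei]
    have BAe : B * A * e i = (B * e i) * (A * e i) := by
      ext y
      change B (A (e i y)) = B (e i (A (e i y)))
      rw [← hcomm A hA, hei]
    have e1 : A * B * e i = (k.smulRight (f v • w)) := by
      rw [ABe, hAe, hBe]
      ext y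
      simp only [Module.End.mul_apply, LinearMap.smulRight_apply, map_smul]
    have e2 : B * A * e i = (f.smulRight (k w • v)) := by
      rw [BAe, hAe, hBe]
      ext y
      simp only [Module.End.mul_apply, LinearMap.smulRight_apply, map_smul]
    have ht := hcon A hA B hB'
    rw [e1, LinearMap.trace_smulRight, map_smul, smul_eq_mul] at ht
    rcases mul_eq_zero.mp ht with h | h
    · left
      rw [e1, h, zero_smul]
      ext y
      simp
    · right
      rw [e2, h, zero_smul]
      ext y
      simp
  have hor : (∀ A ∈ Orb e g N, ∀ B ∈ Orb e g N, A * B * e i = 0) := by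
    by_contra h
    push Not at h
    obtain ⟨A0, hA0, B0, hB0, hne⟩ := h
    obtain ⟨x, hx⟩ : ∃ x, (A0 * B0 * e i) x ≠ 0 := by
      by_contra h
      push Not at h
      exact hne (LinearMap.ext h)
    obtain ⟨F1, hF1⟩ : ∃ F1 : V →ₗ[K] K, F1 ((A0 * B0 * e i) x) ≠ 0 := by
      by_contra h
      push Not at h
      exact hx ((Module.forall_dual_apply_eq_zero_iff K _).mp h)
    have key : ∀ A ∈ Orb e g N, ∀ B ∈ Orb e g N, B * A * e i = 0 := by
      intro A hA B hB'
      ext y
      change (B * A) (e i y) = 0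
      apply (Module.forall_dual_apply_eq_zero_iff K _).mp
      intro F2
      have := hIrr (fun A B _ => ((F1.comp (LinearMap.applyₗ (e i x) : End K V →ₗ[K] V)) (A * B)))
        (fun A B _ => ((F2.comp (LinearMap.applyₗ (e i y) : End K V →ₗ[K] V)) (B * A)))
        (poly2 _) (poly2' _) (by
          intro A hA B hB _ _
          simp only [LinearMap.comp_apply, LinearMap.applyₗ_apply_apply]
          rcases hprod A hA B hB with h | h
          · have : (A * B) (e i x) = 0 := LinearMap.congr_fun h x
            rw [this, map_zero, zero_mul]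
          · have : (B * A) (e i y) = 0 := LinearMap.congr_fun h y
            rw [this, map_zero, mul_zero])
      rcases this with h1 | h1
      · exact absurd (h1 A0 hA0 B0 hB0 A0 hA0) hF1
      · exact h1 A hA B hB' A hA
    exact hne (key B0 hB0 A0 hA0)
  apply hNe
  ext y
  change N (e i y) = 0
  apply c1
  · rw [← hcomm N hNO, hei]
  · intro M hM
    exact LinearMap.congr_fun (hor M hM N hNO) y

end Pool.Agent.MT4.H48
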