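import Pool.Agent.Helper79_MT4.Stmt

/-! Squad MT4, module IRR (helper48): the orbit is irreducible. -/

set_option autoImplicit false

namespace Pool.Agent.MT4.H48

open Module LinearMap Polynomial Pool.Agent.MT4

universe u v w

/-- two elements of the orbit are joined by a polynomial curve -/
theorem pairCurve (hC : CurStmt.{u, v}) (hP : PathStmt.{u, v, w}) (hG : GrpStmt.{u, v, w})
    (K : Type u) (V : Type v) (ι : Type w) [Field K] [CharZero K]
    [AddCommGroup V] [Module K V] [FiniteDimensional K V] (ψ : V →ₗ[K] V →ₗ[K] K)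
    (e : ι → End K V) (σ : ι → ι) (g : Submodule K (End K V)) (N : End K V)
    (hB : Blk4 ψ e σ g) (A B : End K V) (hA : A ∈ Orb e g N) (hB' : B ∈ Orb e g N) :
    ∃ x : K → End K V, IsCurve x ∧ x 0 = B ∧ x 1 = A ∧ ∃ c : K[X], c ≠ 0 ∧
      ∀ s, c.eval s ≠ 0 → x s ∈ Orb e g N := by
  obtain ⟨hconst, hadd, hsub, hmul, hsmul, hcomp, hfun⟩ := hC K V
  obtain ⟨α, a, a', hα, haa, rfl⟩ := hA
  obtain ⟨β, b, b', hβ, hbb, rfl⟩ := hB'
  have hG' := hG K V ι ψ e σ g hB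
  obtain ⟨p, q, c, hp, hq, hp0, hp1, hc0, hc1, hc⟩ := hP K V ι ψ e σ g hB a a' haa
  obtain ⟨p2, q2, c2, hp2, hq2, hp20, hp21, hc20, hc21, hc2⟩ := hP K V ι ψ e σ g hB b b' hbb
  -- values at the end points
  have uniq : ∀ a a' b : End K V, Gp e g a a' → Gp e g a b → b = a' := by
    intro a a' b h1 h2
    have e1 := (hG' a a' h1).2.1
    have e2 := (hG' a b h2).1
    calc b = (a' * a) * b := by rw [e1, one_mul]
      _ = a' * (a * b) := mul_assoc _ _ _
      _ = a' := by rw [e2, mul_one]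
  obtain ⟨r0, k2, hk2, hg0, hq0⟩ := hc 0 hc0
  obtain ⟨r1, k1, hk1, hg1, hq1⟩ := hc 1 hc1
  obtain ⟨r2, k0, hk0, hg2, hq20⟩ := hc2 0 hc20
  obtain ⟨r3, k3, hk3, hg3, hq21⟩ := hc2 1 hc21
  rw [hp0] at hg0
  rw [hp1] at hg1
  rw [hp20] at hg2
  rw [hp21] at hg3
  have er0 := uniq 1 1 r0 Gp.one hg0
  have er2 := uniq 1 1 r2 Gp.one hg2
  have er1 := uniq a a' r1 haa hg1
  have er3 := uniq b b' r3 hbb hg3
  subst er0 er1 er2 er3
  set l0 : K := β / (k2 * k3) with hl0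
  set l1 : K := α / (k0 * k1) with hl1
  set L : K[X] := C l0 + X * C (l1 - l0) with hL
  have hL0 : L.eval 0 = l0 := by simp [hL]
  have hL1 : L.eval 1 = l1 := by simp [hL]
  have hl0' : l0 ≠ 0 := div_ne_zero hβ (mul_ne_zero hk2 hk3)
  have hl1' : l1 ≠ 0 := div_ne_zero hα (mul_ne_zero hk0 hk1)
  have e1s : ∀ s : K, (1 - X : K[X]).eval s = 1 - s := fun s => by simp
  have c2p := hcomp (1 - X) p2 hp2
  have c2q := hcomp (1 - X) q2 hq2
  simp only [e1s] at c2p c2q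
  refine ⟨fun s => L.eval s • (p s * p2 (1 - s) * N * q2 (1 - s) * q s), ?_, ?_, ?_,
    L * c * c2.comp (1 - X), ?_, ?_⟩
  · exact hsmul L _ (hmul _ _ (hmul _ _ (hmul _ _ (hmul _ _ hp c2p) (hconst N)) c2q) hq)
  · simp only [sub_zero]
    rw [hL0, hp0, hp21, hq21, hq0, one_mul]
    rw [mul_smul_comm, mul_smul_comm, smul_mul_assoc, smul_smul, smul_smul, mul_one]
    congr 1
    rw [hl0]
    field_simp
  · simp only [sub_self]
    rw [hL1, hp1, hp20, hq20, hq1, mul_one]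
    rw [mul_smul_comm, mul_smul_comm, smul_mul_assoc, smul_smul, smul_smul, mul_one]
    congr 1
    rw [hl1]
    field_simp
  · intro h0
    have := congrArg (Polynomial.eval 1) h0
    rw [eval_mul, eval_mul, eval_comp, e1s, sub_self, hL1, eval_zero] at this
    exact (mul_ne_zero (mul_ne_zero hl1' hc1) hc20) this
  · intro s hs
    rw [eval_mul, eval_mul, eval_comp, e1s] at hs
    have h1 : c.eval s ≠ 0 := fun h => hs (by rw [h]; ring)
    have h2 : c2.eval (1 - s) ≠ 0 := fun h => hs (by rw [h]; ring)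
    have h3 : L.eval s ≠ 0 := fun h => hs (by rw [h]; ring)
    obtain ⟨r, k, hk, hg, hqs⟩ := hc s h1
    obtain ⟨r', k', hk', hg', hqs'⟩ := hc2 (1 - s) h2
    refine ⟨L.eval s * (k * k'), p s * p2 (1 - s), r' * r, mul_ne_zero h3 (mul_ne_zero hk hk'),
      (hG' _ _ hg).2.2.2.2.2.2.2 _ _ hg', ?_⟩
    simp only
    rw [hqs, hqs', mul_smul_comm, mul_smul_comm, smul_mul_assoc, smul_smul, smul_smul]
    simp only [mul_assoc]

theorem irr (hC : CurStmt.{u, v}) (hP : PathStmt.{u, v, w}) (hG : GrpStmt.{u, v, w}) :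
    IrrStmt.{u, v, w} := by
  intro K V ι _ _ _ _ _ ψ e σ g N hB _ Φ₁ Φ₂ h1 h2 h
  by_contra hcon
  push Not at hcon
  obtain ⟨⟨A1, hA1, A2, hA2, A3, hA3, hA⟩, ⟨B1, hB1, B2, hB2, B3, hB3, hBn⟩⟩ := hcon
  obtain ⟨x1, cx1, z1, o1, c1, hc1, m1⟩ := pairCurve hC hP hG K V ι ψ e σ g N hB A1 B1 hA1 hB1
  obtain ⟨x2, cx2, z2, o2, c2, hc2, m2⟩ := pairCurve hC hP hG K V ι ψ e σ g N hB A2 B2 hA2 hB2
  obtain ⟨x3, cx3, z3, o3, c3, hc3, m3⟩ := pairCurve hC hP hG K V ι ψ e σ g N hB A3 B3 hA3 hB3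
  obtain ⟨P1, hP1⟩ := h1 x1 x2 x3 cx1 cx2 cx3
  obtain ⟨P2, hP2⟩ := h2 x1 x2 x3 cx1 cx2 cx3
  have key : P1 * P2 * (c1 * c2 * c3) = 0 := by
    apply Polynomial.funext
    intro s
    rw [eval_zero, eval_mul, eval_mul]
    by_cases hs : (c1 * c2 * c3).eval s = 0
    · rw [hs, mul_zero]
    · rw [eval_mul, eval_mul] at hs
      have h1 : c1.eval s ≠ 0 := fun h => hs (by rw [h]; ring)
      have h2 : c2.eval s ≠ 0 := fun h => hs (by rw [h]; ring)
      have h3 : c3.eval s ≠ 0 := fun h => hs (by rw [h]; ring)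
      rw [← hP1, ← hP2, h _ (m1 s h1) _ (m2 s h2) _ (m3 s h3), zero_mul]
  rcases mul_eq_zero.mp key with h0 | h0
  · rcases mul_eq_zero.mp h0 with h0 | h0
    · apply hA
      have := hP1 1
      rw [o1, o2, o3, h0, eval_zero] at this
      exact this
    · apply hBn
      have := hP2 0
      rw [z1, z2, z3, h0, eval_zero] at this
      exact this
  · exact (mul_ne_zero (mul_ne_zero hc1 hc2) hc3) h0

end Pool.Agent.MT4.H48
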